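import Mathlib

set_option autoImplicit false

namespace Pool.Agent.Helper72.Delta

/-- `z` is a sum of `l` elements of `{1, 2, h, 2h}`. -/
def Rep (h l z : ℕ) : Prop :=
  ∃ a b p q : ℕ, a + b + p + q = l ∧ a + 2 * b + h * p + 2 * h * q = z

def IsR (h r : ℕ) : Prop := r = 1 ∨ r = 2 ∨ r = h ∨ r = 2 * h

theorem Rep.zero (h : ℕ) : Rep h 0 0 := ⟨0, 0, 0, 0, by simp, by simp⟩

theorem Rep.eq_zero {h z : ℕ} (H : Rep h 0 z) : z = 0 := by
  obtain ⟨a, b, p, q, h1, h2⟩ := H
  have ha : a = 0 := by omega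
  have hb : b = 0 := by omega
  have hp : p = 0 := by omega
  have hq : q = 0 := by omega
  subst ha hb hp hq
  simpa using h2.symm

theorem Rep.add {h l z r : ℕ} (H : Rep h l z) (hr : IsR h r) : Rep h (l + 1) (z + r) := by
  obtain ⟨a, b, p, q, h1, h2⟩ := H
  rcases hr with rfl | rfl | rfl | rfl
  · exact ⟨a + 1, b, p, q, by omega, by omega⟩
  · exact ⟨a, b + 1, p, q, by omega, by omega⟩
  · exact ⟨a, b, p + 1, q, by omega, by rw [← h2]; ring⟩
  · exact ⟨a, b, p, q + 1, by omega, by rw [← h2]; ring⟩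

theorem Rep.peel {h l z : ℕ} (H : Rep h (l + 1) z) :
    ∃ r z', IsR h r ∧ z = z' + r ∧ Rep h l z' := by
  obtain ⟨a, b, p, q, h1, h2⟩ := H
  rcases Nat.eq_zero_or_pos a with ha | ha
  · rcases Nat.eq_zero_or_pos b with hb | hb
    · rcases Nat.eq_zero_or_pos p with hp | hp
      · obtain ⟨q', rfl⟩ : ∃ q', q = q' + 1 := ⟨q - 1, by omega⟩
        exact ⟨2 * h, _, Or.inr (Or.inr (Or.inr rfl)), by rw [← h2]; ring,
          ⟨a, b, p, q', by omega, rfl⟩⟩
      · obtain ⟨p', rfl⟩ : ∃ p', p = p' + 1 := ⟨p - 1, by omega⟩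
        exact ⟨h, _, Or.inr (Or.inr (Or.inl rfl)), by rw [← h2]; ring,
          ⟨a, b, p', q, by omega, rfl⟩⟩
    · obtain ⟨b', rfl⟩ : ∃ b', b = b' + 1 := ⟨b - 1, by omega⟩
      exact ⟨2, _, Or.inr (Or.inl rfl), by rw [← h2]; ring, ⟨a, b', p, q, by omega, rfl⟩⟩
  · obtain ⟨a', rfl⟩ : ∃ a', a = a' + 1 := ⟨a - 1, by omega⟩
    exact ⟨1, _, Or.inl rfl, by rw [← h2]; ring, ⟨a', b, p, q, by omega, rfl⟩⟩

theorem Rep.addOnes {h l z : ℕ} (H : Rep h l z) (i : ℕ) : Rep h (l + i) (z + i) := by
  obtain ⟨a, b, p, q, h1, h2⟩ := H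
  exact ⟨a + i, b, p, q, by omega, by omega⟩

theorem Rep.ones (h l : ℕ) : Rep h l l := ⟨l, 0, 0, 0, by simp, by simp⟩

theorem Rep.onesTwos {h l z : ℕ} (h1 : l ≤ z) (h2 : z ≤ 2 * l) : Rep h l z :=
  ⟨2 * l - z, z - l, 0, 0, by omega, by simp; omega⟩

theorem Rep.le {h l z : ℕ} (hh : 1 ≤ h) (H : Rep h l z) : l ≤ z := by
  obtain ⟨a, b, p, q, h1, h2⟩ := H
  have : 1 * p ≤ h * p := Nat.mul_le_mul_right _ hh
  have : 1 * q ≤ 2 * h * q := Nat.mul_le_mul_right _ (by omega)
  omega

theorem Rep.le' {h l z : ℕ} (hh : 1 ≤ h) (H : Rep h l z) : z ≤ 2 * h * l := by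
  obtain ⟨a, b, p, q, h1, h2⟩ := H
  subst h1 h2
  have h3 : 1 * a ≤ 2 * h * a := Nat.mul_le_mul_right _ (by omega)
  have h4 : 2 * b ≤ 2 * h * b := Nat.mul_le_mul_right _ (by omega)
  have h5 : h * p ≤ 2 * h * p := Nat.mul_le_mul_right _ (by omega)
  nlinarith

/-- interval property -/
theorem Rep.succ {e l z : ℕ} (H : Rep (2 * e + 1) l z) (hlt : l < z)
    (hz : (2 * e + 1) * (2 * e + 1) ≤ z) : Rep (2 * e + 1) (l + 1) z := by
  obtain ⟨a, b, p, q, h1, h2⟩ := H
  rcases Nat.eq_zero_or_pos b with hb | hb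
  · rcases Nat.eq_zero_or_pos q with hq | hq
    · subst hb hq
      simp only [Nat.mul_zero, Nat.add_zero] at h1 h2
      rcases Nat.eq_zero_or_pos e with he | he
      · subst he
        simp at h2
        omega
      · -- `p ≥ 1`
        have hp : 1 ≤ p := by
          rcases Nat.eq_zero_or_pos p with hp | hp
          · subst hp; simp at h2; omega
          · exact hp
        by_cases hp2 : 2 * e - 1 ≤ p
        · -- merge `e-1` pairs of `h`, expand one `h`
          refine ⟨a + 1, e, p - (2 * e - 1), e - 1, by omega, ?_⟩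
          obtain ⟨e', rfl⟩ : ∃ e', e = e' + 1 := ⟨e - 1, by omega⟩
          obtain ⟨p', rfl⟩ : ∃ p', p = p' + (2 * (e' + 1) - 1) := ⟨p - (2 * (e' + 1) - 1), by omega⟩
          have e1 : p' + (2 * (e' + 1) - 1) - (2 * (e' + 1) - 1) = p' := by omega
          have e2 : e' + 1 - 1 = e' := by omega
          have e3 : 2 * (e' + 1) - 1 = 2 * e' + 1 := by omega
          rw [e1, e2]
          rw [e3] at h2
          rw [← h2]; ring
        · -- many ones
          have ha : 2 * (e - 1) ≤ a := by
            have h3 : (2 * e + 1) * p ≤ (2 * e + 1) * (2 * e - 2) :=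
              Nat.mul_le_mul_left _ (by omega)
            obtain ⟨e', rfl⟩ : ∃ e', e = e' + 1 := ⟨e - 1, by omega⟩
            have e4 : 2 * (e' + 1) - 2 = 2 * e' := by omega
            rw [e4] at h3
            have e5 : e' + 1 - 1 = e' := by omega
            rw [e5]
            nlinarith
          refine ⟨a - 2 * (e - 1) + 1, (e - 1) + e, p - 1, 0, by omega, ?_⟩
          obtain ⟨p', rfl⟩ : ∃ p', p = p' + 1 := ⟨p - 1, by omega⟩
          have e1 : p' + 1 - 1 = p' := by omega
          rw [e1]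
          have : (2 * e + 1) * (p' + 1) = (2 * e + 1) * p' + (2 * e + 1) := by ring
          rw [this] at h2
          simp only [Nat.mul_zero, Nat.add_zero]
          omega
    · refine ⟨a, b, p + 2, q - 1, by omega, ?_⟩
      obtain ⟨q', rfl⟩ : ∃ q', q = q' + 1 := ⟨q - 1, by omega⟩
      have e1 : q' + 1 - 1 = q' := by omega
      rw [e1, ← h2]; ring
  · exact ⟨a + 2, b - 1, p, q, by omega, by omega⟩

/-- Lower bound at the critical residue. -/
theorem Rep.lower {e t l z : ℕ} (hz : z + 1 = 2 * (2 * e + 1) * t) (H : Rep (2 * e + 1) l z) :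
    t + e ≤ l := by
  obtain ⟨a, b, p, q, h1, h2⟩ := H
  -- s = a + 2b, P = p + 2q, s + h P + 1 = 2 h t
  have key : (a + 2 * b + 1) + (2 * e + 1) * (p + 2 * q) = (2 * e + 1) * (2 * t) := by
    have : (a + 2 * b + 1) + (2 * e + 1) * (p + 2 * q) = z + 1 := by rw [← h2]; ring
    rw [this, hz]; ring
  have hP : p + 2 * q ≤ 2 * t := by
    by_contra hcon
    push Not at hcon
    have : (2 * e + 1) * (2 * t + 1) ≤ (2 * e + 1) * (p + 2 * q) := Nat.mul_le_mul_left _ hcon
    nlinarith
  obtain ⟨u, hu⟩ : ∃ u, 2 * t = p + 2 * q + u := ⟨2 * t - (p + 2 * q), by omega⟩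
  have hs : a + 2 * b + 1 = (2 * e + 1) * u := by
    rw [hu] at key
    have : (2 * e + 1) * (p + 2 * q + u) = (2 * e + 1) * (p + 2 * q) + (2 * e + 1) * u := by ring
    omega
  rcases Nat.lt_or_ge u 2 with hu2 | hu2
  · interval_cases u
    · omega
    · -- P odd
      have : 1 ≤ p := by omega
      omega
  · -- `2 l ≥ s + P`
    have h3 : (2 * e + 1) * u = 2 * (e * u) + u := by ring
    have h4 : e * 2 ≤ e * u := Nat.mul_le_mul_left _ hu2
    omega

/-- residue-class version -/
def Lam (e m l x : ℕ) : Prop := ∃ z, z ≡ x [MOD m] ∧ Rep (2 * e + 1) l z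

theorem lam_next {e t m k x j : ℕ} (hm : m = (4 * e + 1) * t + 1) (ht : e + 2 ≤ t)
    (hk : k ≡ x [MOD m]) (hkt : k + 2 ≤ t) (hkj : k < j) (hj : Lam e m j x) :
    k + (e + 2) ≤ j := by
  obtain ⟨z, hz, hrep⟩ := hj
  have hzk : k ≡ z [MOD m] := hk.trans hz.symm
  have hjz : j ≤ z := hrep.le (by omega)
  have hdvd : m ∣ z - k := (Nat.modEq_iff_dvd' (by omega)).1 hzk
  obtain ⟨n, hn⟩ := hdvd
  have hn0 : 1 ≤ n := by
    rcases Nat.eq_zero_or_pos n with h0 | h0
    · subst h0; simp at hn; omega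
    · exact h0
  rcases Nat.lt_or_ge n 2 with hn2 | hn2
  · have hn1 : n = 1 := by omega
    subst hn1
    have hz' : z = k + m := by omega
    have h1 := hrep.addOnes (t - 2 - k)
    have h2 := Rep.lower (t := t) (z := z + (t - 2 - k)) (by
      rw [hz', hm]
      have : 2 * (2 * e + 1) * t = (4 * e + 1) * t + t := by ring
      omega) h1
    omega
  · have h3 : m * 2 ≤ m * n := Nat.mul_le_mul_left _ hn2
    have h4 := hrep.le' (by omega)
    by_contra hcon
    push Not at hcon
    have h5 : j ≤ k + e + 1 := by omega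
    have h6 : 2 * (2 * e + 1) * j ≤ 2 * (2 * e + 1) * (k + e + 1) := Nat.mul_le_mul_left _ h5
    have h7 : z = k + m * n := by omega
    have h8 : (4 * e + 1) * (k + 2) ≤ (4 * e + 1) * t := Nat.mul_le_mul_left _ hkt
    have h9 : (4 * e + 1) * (e + 2) ≤ (4 * e + 1) * t := Nat.mul_le_mul_left _ ht
    nlinarith

theorem lam_gap {e t m k x : ℕ} (hm : m = (4 * e + 1) * t + 1) (hk2 : (2 * e + 1) * (2 * e + 1) ≤ k)
    (h1 : Lam e m k x) (h2 : ¬ Lam e m (k + 1) x) : k ≡ x [MOD m] ∧ k + 2 ≤ t := by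
  obtain ⟨z, hz, hrep⟩ := h1
  have hkz : k ≤ z := hrep.le (by omega)
  have hkeq : k = z := by
    rcases Nat.lt_or_ge k z with h | h
    · exact absurd ⟨z, hz, hrep.succ h (by omega)⟩ h2
    · omega
  subst hkeq
  refine ⟨hz, ?_⟩
  by_contra hcon
  push Not at hcon
  apply h2
  refine ⟨k + m, ?_, ?_⟩
  · have : k + m ≡ k [MOD m] := by simp [Nat.ModEq]
    exact this.trans hz
  · refine ⟨k + 1 - t, 0, 0, t, by omega, ?_⟩
    rw [hm]
    have : 2 * (2 * e + 1) * t = (4 * e + 1) * t + t := by ring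
    simp only [Nat.mul_zero, Nat.add_zero]
    omega

theorem lam_top {e t m k : ℕ} (hm : m = (4 * e + 1) * t + 1) (hk : k + 2 = t) :
    Lam e m (k + (e + 2)) k := by
  refine ⟨k + m, by simp [Nat.ModEq], ?_⟩
  refine ⟨0, e, 1, k + 1, by omega, ?_⟩
  rw [hm, ← hk]; ring


section semigroup

variable (I : Finset ℕ) (e m : ℕ → ℕ) (N W : ℕ)

/-- the generating set -/
def InA (a : ℕ) : Prop :=
  N ≤ a ∧ a ≤ N + W ∧ ∀ d ∈ I, ∃ r, IsR (2 * e d + 1) r ∧ a ≡ r [MOD m d]

/-- `x` is a sum of `j` generators -/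
def Good (j x : ℕ) : Prop :=
  ∃ s : Multiset ℕ, (∀ a ∈ s, InA I e m N W a) ∧ s.sum = x ∧ Multiset.card s = j

def ResOK (j x : ℕ) : Prop := ∀ d ∈ I, Lam (e d) (m d) j x

variable {I e m N W}

theorem Good.add {j x a : ℕ} (H : Good I e m N W j x) (ha : InA I e m N W a) :
    Good I e m N W (j + 1) (x + a) := by
  obtain ⟨s, h1, h2, h3⟩ := H
  refine ⟨a ::ₘ s, ?_, ?_, ?_⟩
  · intro b hb
    rcases Multiset.mem_cons.1 hb with rfl | hb
    · exact ha
    · exact h1 b hb
  · rw [Multiset.sum_cons, h2]; omega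
  · rw [Multiset.card_cons, h3]

theorem good_res {j x : ℕ} (H : Good I e m N W j x) :
    ResOK I e m j x ∧ j * N ≤ x ∧ x ≤ j * (N + W) := by
  obtain ⟨s, h1, h2, h3⟩ := H
  subst h2 h3
  induction s using Multiset.induction_on with
  | empty =>
    refine ⟨fun d _ => ⟨0, by simp [Nat.ModEq], ?_⟩, by simp, by simp⟩
    simpa using Rep.zero _
  | cons a s ih =>
    obtain ⟨h4, h5, h6⟩ := ih (fun b hb => h1 b (Multiset.mem_cons_of_mem hb))
    obtain ⟨h7, h8, h9⟩ := h1 a (Multiset.mem_cons_self a s)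
    refine ⟨?_, ?_, ?_⟩
    · intro d hd
      obtain ⟨z, hz, hrep⟩ := h4 d hd
      obtain ⟨r, hr, har⟩ := h9 d hd
      refine ⟨z + r, ?_, ?_⟩
      · rw [Multiset.sum_cons, add_comm a]
        exact Nat.ModEq.add hz har.symm
      · rw [Multiset.card_cons]
        exact hrep.add hr
    · rw [Multiset.card_cons, Multiset.sum_cons, Nat.add_mul]; omega
    · rw [Multiset.card_cons, Multiset.sum_cons, Nat.add_mul]; omega

theorem exists_modEq_ge (M lo ρ : ℕ) (hM : 1 ≤ M) :
    ∃ a, lo ≤ a ∧ a < lo + M ∧ a ≡ ρ [MOD M] := by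
  refine ⟨lo + (ρ + (M - 1) * lo) % M, by omega, ?_, ?_⟩
  · have := Nat.mod_lt (ρ + (M - 1) * lo) hM
    omega
  · have h1 : lo + (ρ + (M - 1) * lo) % M ≡ lo + (ρ + (M - 1) * lo) [MOD M] :=
      Nat.ModEq.add_left _ (Nat.mod_modEq _ _)
    have h2 : lo + (ρ + (M - 1) * lo) = ρ + M * lo := by
      obtain ⟨M', rfl⟩ : ∃ M', M = M' + 1 := ⟨M - 1, by omega⟩
      simp only [Nat.add_sub_cancel]
      ring
    rw [h2] at h1
    refine h1.trans ?_
    simp [Nat.ModEq]

theorem good_of_res {M : ℕ} (hM : M = ∏ d ∈ I, m d) (hM1 : 1 ≤ M)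
    (hpos : ∀ d ∈ I, m d ≠ 0)
    (hcop : Set.Pairwise (I : Set ℕ) (Function.onFun Nat.Coprime m)) (hW : 3 * M ≤ W) :
    ∀ j x : ℕ, ResOK I e m j x → j * (N + M) ≤ x → x + j * M ≤ j * (N + W) →
      Good I e m N W j x := by
  intro j
  induction j with
  | zero =>
    intro x _ _ hx
    have : x = 0 := by simpa using hx
    subst this
    exact ⟨0, by simp, by simp, by simp⟩
  | succ j ih =>
    intro x hres hlo hhi
    have hdec : ∀ d ∈ I, ∃ r z', IsR (2 * e d + 1) r ∧ z' + r ≡ x [MOD m d] ∧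
        Rep (2 * e d + 1) j z' := by
      intro d hd
      obtain ⟨z, hz, hrep⟩ := hres d hd
      obtain ⟨r, z', hr, hzz, hrep'⟩ := hrep.peel
      exact ⟨r, z', hr, by rw [← hzz]; exact hz, hrep'⟩
    rcases Nat.eq_zero_or_pos j with hj | hj
    · subst hj
      refine ⟨{x}, ?_, by simp, by simp⟩
      intro a ha
      rw [Multiset.mem_singleton] at ha
      subst ha
      refine ⟨by omega, by omega, ?_⟩
      intro d hd
      obtain ⟨r, z', hr, hz, hrep⟩ := hdec d hd
      have := hrep.eq_zero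
      subst this
      exact ⟨r, hr, by simpa using hz.symm⟩
    · choose! r z' hr hz hrep using hdec
      obtain ⟨ρ, hρ⟩ := Nat.chineseRemainderOfFinset r m I hpos hcop
      obtain ⟨a, ha1, ha2, ha3⟩ := exists_modEq_ge M (max N (x + j * M - j * (N + W))) ρ hM1
      have hjW : j * (3 * M) ≤ j * W := Nat.mul_le_mul_left _ hW
      have hjM : 1 * M ≤ j * M := Nat.mul_le_mul_right _ hj
      have e1 : (j + 1) * (N + M) = j * N + j * M + N + M := by ring
      have e2 : (j + 1) * (N + W) = j * N + j * W + N + W := by ring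
      have e3 : (j + 1) * M = j * M + M := by ring
      have e4 : j * (N + W) = j * N + j * W := by ring
      have e5 : j * (N + M) = j * N + j * M := by ring
      have e6 : j * (3 * M) = 3 * (j * M) := by ring
      rw [e1] at hlo
      rw [e2, e3] at hhi
      rw [e4] at ha1 ha2
      have hax : a ≤ x := by omega
      have hInA : InA I e m N W a := by
        refine ⟨by omega, by omega, ?_⟩
        intro d hd
        refine ⟨r d, hr d hd, ?_⟩
        have hdvd : m d ∣ M := by rw [hM]; exact Finset.dvd_prod_of_mem m hd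
        exact (ha3.of_dvd hdvd).trans (hρ d hd)
      have hrec : Good I e m N W j (x - a) := by
        apply ih
        · intro d hd
          refine ⟨z' d, ?_, hrep d hd⟩
          have hdvd : m d ∣ M := by rw [hM]; exact Finset.dvd_prod_of_mem m hd
          have h1 : a ≡ r d [MOD m d] := (ha3.of_dvd hdvd).trans (hρ d hd)
          have h2 : z' d + a ≡ x [MOD m d] := (Nat.ModEq.add_left _ h1).trans (hz d hd)
          have h3 : z' d + a ≡ (x - a) + a [MOD m d] := by
            rw [Nat.sub_add_cancel hax]; exact h2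
          exact Nat.ModEq.add_right_cancel' a h3
        · rw [e5]; omega
        · rw [e4]; omega
      have := hrec.add hInA
      rwa [Nat.sub_add_cancel hax] at this

theorem resOK_large {M : ℕ} (hmM : ∀ d ∈ I, 1 ≤ m d ∧ m d ≤ M) (x : ℕ) :
    ResOK I e m (M + 1) x := by
  intro d hd
  obtain ⟨h1, h2⟩ := hmM d hd
  obtain ⟨a, ha1, ha2, ha3⟩ := exists_modEq_ge (m d) (M + 1) x h1
  exact ⟨a, ha3, Rep.onesTwos ha1 (by omega)⟩

theorem good_main {M : ℕ} (hM : M = ∏ d ∈ I, m d) (hM1 : 1 ≤ M)
    (hpos : ∀ d ∈ I, m d ≠ 0) (hmM : ∀ d ∈ I, 1 ≤ m d ∧ m d ≤ M)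
    (hcop : Set.Pairwise (I : Set ℕ) (Function.onFun Nat.Coprime m)) (hW : 3 * M ≤ W)
    (hW2 : 2 * ((M + 1) * M) ≤ W) (hN : InA I e m N W N) (hNW : InA I e m N W (N + W))
    (j x : ℕ) (hres : ResOK I e m j x) (hlo : j * N + (M + 1) * M ≤ x)
    (hhi : x + (M + 1) * M ≤ j * (N + W)) : Good I e m N W j x := by
  rcases Nat.lt_or_ge (M + 1) j with hj | hj
  · -- large j
    clear hres
    obtain ⟨i, rfl⟩ : ∃ i, j = (M + 1) + i := ⟨j - (M + 1), by omega⟩
    clear hj
    induction i generalizing x with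
    | zero =>
      refine good_of_res hM hM1 hpos hcop hW _ _ (resOK_large hmM x) ?_ ?_
      · have : (M + 1 + 0) * (N + M) = (M + 1 + 0) * N + (M + 1) * M := by ring
        omega
      · simpa using hhi
    | succ i ih =>
      have e1 : (M + 1 + (i + 1)) * N = (M + 1 + i) * N + N := by ring
      have e2 : (M + 1 + (i + 1)) * (N + W) = (M + 1 + i) * N + (M + i) * W + N + 2 * W := by ring
      have e3 : (M + 1 + i) * (N + W) = (M + 1 + i) * N + (M + i) * W + W := by ring
      have h1 : 1 * W ≤ (M + i) * W := Nat.mul_le_mul_right _ (by omega)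
      rw [e1] at hlo
      rw [e2] at hhi
      by_cases hcase : (x - N) + (M + 1) * M ≤ (M + 1 + i) * (N + W)
      · have := (ih (x - N) (by omega) hcase).add hN
        rwa [Nat.sub_add_cancel (by omega), Nat.add_assoc] at this
      · rw [e3] at hcase
        have := (ih (x - (N + W)) (by omega) (by rw [e3]; omega)).add hNW
        rwa [Nat.sub_add_cancel (by omega), Nat.add_assoc] at this
  · refine good_of_res hM hM1 hpos hcop hW _ _ hres ?_ ?_
    · have h1 : j * M ≤ (M + 1) * M := Nat.mul_le_mul_right _ hj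
      have : j * (N + M) = j * N + j * M := by ring
      omega
    · have h1 : j * M ≤ (M + 1) * M := Nat.mul_le_mul_right _ hj
      omega

end semigroup

/-- the semigroup -/
def SG (I : Finset ℕ) (e m : ℕ → ℕ) (N W : ℕ) : AddSubmonoid ℕ :=
  AddSubmonoid.closure {a | InA I e m N W a}

section final

variable {I : Finset ℕ} {e m : ℕ → ℕ} {N W : ℕ}

theorem mem_SG_iff {x : ℕ} : x ∈ SG I e m N W ↔ ∃ j, Good I e m N W j x := by
  constructor
  · intro hx
    obtain ⟨s, hs, hsum⟩ := AddSubmonoid.exists_multiset_of_mem_closure hx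
    exact ⟨Multiset.card s, s, hs, hsum, rfl⟩
  · rintro ⟨j, s, hs, hsum, -⟩
    rw [← hsum]
    exact AddSubmonoid.multiset_sum_mem _ _ (fun a ha => AddSubmonoid.subset_closure (hs a ha))

theorem SG_zero_or_ge {x : ℕ} (hx : x ∈ SG I e m N W) : x = 0 ∨ N ≤ x := by
  obtain ⟨j, hj⟩ := mem_SG_iff.1 hx
  obtain ⟨-, h1, h2⟩ := good_res hj
  rcases Nat.eq_zero_or_pos j with h | h
  · subst h; left; simpa using h2
  · right
    have : 1 * N ≤ j * N := Nat.mul_le_mul_right _ h
    omega

theorem atom_iff (_hN : 1 ≤ N) (hW : W < N) (a : ℕ) :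
    (a ∈ SG I e m N W ∧ a ≠ 0 ∧ ∀ b ∈ SG I e m N W, ∀ c ∈ SG I e m N W,
      b + c = a → b = 0 ∨ c = 0) ↔ InA I e m N W a := by
  constructor
  · rintro ⟨h1, h2, h3⟩
    obtain ⟨j, s, hs, hsum, hcard⟩ := mem_SG_iff.1 h1
    induction s using Multiset.induction_on with
    | empty => simp at hsum; omega
    | cons b s _ =>
      have hb : InA I e m N W b := hs b (Multiset.mem_cons_self b s)
      have hbS : b ∈ SG I e m N W := AddSubmonoid.subset_closure hb
      have hcS : s.sum ∈ SG I e m N W :=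
        AddSubmonoid.multiset_sum_mem _ _ (fun a ha =>
          AddSubmonoid.subset_closure (hs a (Multiset.mem_cons_of_mem ha)))
      rw [Multiset.sum_cons] at hsum
      rcases h3 b hbS s.sum hcS hsum with h | h
      · have := hb.1; omega
      · have : a = b := by omega
        rw [this]; exact hb
  · intro ha
    refine ⟨AddSubmonoid.subset_closure ha, by have := ha.1; omega, ?_⟩
    intro b hb c hc hbc
    by_contra hcon
    push Not at hcon
    have h1 := (SG_zero_or_ge hb).resolve_left hcon.1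
    have h2 := (SG_zero_or_ge hc).resolve_left hcon.2
    have := ha.2.1
    omega

end final

theorem main (D : Finset ℕ) (hD : ∀ d ∈ D, 0 < d) (h1 : 1 ∈ D) :
    ∃ (I : Finset ℕ) (e m : ℕ → ℕ) (N W : ℕ), 1 ≤ N ∧ W < N ∧
      (∃ X : ℕ, ∀ x, X ≤ x → ∃ j, Good I e m N W j x) ∧
      ∀ d : ℕ, (0 < d ∧ ∃ n k : ℕ, Good I e m N W k n ∧ Good I e m N W (k + d) n ∧
        ∀ j : ℕ, k < j → j < k + d → ¬ Good I e m N W j n) ↔ d ∈ D := by
  classical
  set I : Finset ℕ := D.filter (2 ≤ ·) with hI
  have hI2 : ∀ d ∈ I, 2 ≤ d ∧ d ∈ D := by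
    intro d hd
    rw [hI, Finset.mem_filter] at hd
    exact ⟨hd.2, hd.1⟩
  set c : ℕ → ℕ := fun d => (4 * (d - 2) + 1) * (2 * d + 1) with hc
  obtain ⟨B, hB⟩ : ∃ B, ∀ d ∈ I, c d ≤ B :=
    ⟨I.sup c, fun d hd => Finset.le_sup hd⟩
  set T : ℕ := (B + 3).factorial with hT
  have hTB : B + 3 ≤ T := Nat.self_le_factorial _
  set e : ℕ → ℕ := fun d => d - 2 with he
  set t : ℕ → ℕ := fun d => (2 * d + 1) * T with ht
  set m : ℕ → ℕ := fun d => (4 * (d - 2) + 1) * ((2 * d + 1) * T) + 1 with hm
  set M : ℕ := ∏ d ∈ I, m d with hM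
  have hm1 : ∀ d ∈ I, 1 ≤ m d := fun d _ => by simp [hm]
  have hM1 : 1 ≤ M := by
    rw [hM]
    exact Nat.succ_le_of_lt (Finset.prod_pos (fun d hd => Nat.pos_of_ne_zero (by have := hm1 d hd; omega)))
  have hmM : ∀ d ∈ I, 1 ≤ m d ∧ m d ≤ M := by
    intro d hd
    exact ⟨hm1 d hd, Nat.le_of_dvd hM1 (Finset.dvd_prod_of_mem m hd)⟩
  have hpos : ∀ d ∈ I, m d ≠ 0 := fun d hd => by have := hm1 d hd; omega
  have hcmono : ∀ i j, 2 ≤ i → i < j → c i < c j := by
    intro i j hi hij
    have a1 : 4 * (i - 2) + 1 ≤ 4 * (j - 2) + 1 := by omega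
    have a2 : 2 * i + 1 < 2 * j + 1 := by omega
    exact Nat.mul_lt_mul_of_le_of_lt a1 a2 (by omega)
  have hmc : ∀ d, m d = c d * T + 1 := by
    intro d
    simp only [hm, hc]; ring
  have hcop' : ∀ i ∈ I, ∀ j ∈ I, i < j → Nat.Coprime (m i) (m j) := by
    intro i hi j hj hij
    rw [hmc, hmc]
    apply Nat.coprime_mul_succ
    have h2 := hcmono i j (hI2 i hi).1 hij
    have h3 := hB j hj
    exact Nat.dvd_factorial (by omega) (by omega)
  have hcop : Set.Pairwise (I : Set ℕ) (Function.onFun Nat.Coprime m) := by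
    intro i hi j hj hij
    rcases Nat.lt_or_gt_of_ne hij with h | h
    · exact hcop' i hi j hj h
    · exact (hcop' j hj i hi h).symm
  obtain ⟨S, hS⟩ : ∃ S, ∀ d ∈ D, d ≤ S := ⟨D.sup id, fun d hd => Finset.le_sup (f := id) hd⟩
  set W : ℕ := M * (2 * M + S + 4) with hWdef
  set N : ℕ := 2 * T * W + 1 with hN
  have hWe : W = 2 * ((M + 1) * M) + M * S + 2 * M := by rw [hWdef]; ring
  have hMS : 1 * S ≤ M * S := Nat.mul_le_mul_right _ hM1
  have hMM : 1 * M ≤ (M + 1) * M := Nat.mul_le_mul_right _ (by omega)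
  have hTW : 3 * W ≤ T * W := Nat.mul_le_mul_right _ (by omega)
  have hNe : N = 2 * (T * W) + 1 := by rw [hN]; ring
  have hWN : W < N := by omega
  have hW3 : 3 * M ≤ W := by omega
  have hNmod : N ≡ 1 [MOD M] := by
    have : M ∣ 2 * T * W := by
      rw [hWdef]; exact Dvd.intro (2 * T * (2 * M + S + 4)) (by ring)
    rw [hN]
    have h2 := (Nat.modEq_zero_iff_dvd.2 this).add_right 1
    simpa using h2
  have hWmod : W ≡ 0 [MOD M] := by
    rw [Nat.modEq_zero_iff_dvd, hWdef]; exact Dvd.intro _ rfl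
  have hmdvd : ∀ d ∈ I, m d ∣ M := fun d hd => Finset.dvd_prod_of_mem m hd
  have hNA : InA I e m N W N := by
    refine ⟨le_rfl, by omega, fun d hd => ⟨1, Or.inl rfl, hNmod.of_dvd (hmdvd d hd)⟩⟩
  have hNWA : InA I e m N W (N + W) := by
    refine ⟨by omega, le_rfl, fun d hd => ⟨1, Or.inl rfl, ?_⟩⟩
    have : N + W ≡ 1 + 0 [MOD M] := hNmod.add hWmod
    exact this.of_dvd (hmdvd d hd)
  have hgm := good_main (e := e) (N := N) hM hM1 hpos hmM hcop hW3 (by omega) hNA hNWA
  refine ⟨I, e, m, N, W, by omega, hWN, ?_, ?_⟩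
  · -- cofinite
    refine ⟨(M + 1) * M + N * (N + 2 * ((M + 1) * M) + M + 2), ?_⟩
    intro x hx
    set C := (M + 1) * M with hC
    have hNpos : 0 < N := by omega
    refine ⟨(x - C) / N, ?_⟩
    set j := (x - C) / N with hj
    have hj1 : N + 2 * C + M + 2 ≤ j := by
      rw [hj, Nat.le_div_iff_mul_le hNpos, Nat.mul_comm]
      omega
    have hj2 : j * N ≤ x - C := Nat.div_mul_le_self _ _
    have hj3 : x - C < (j + 1) * N := by
      have := Nat.lt_div_mul_add (a := x - C) hNpos
      rw [← hj] at this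
      rw [Nat.add_mul]; omega
    have hj4 : j * 1 ≤ j * W := Nat.mul_le_mul_left _ (by omega)
    apply hgm
    · obtain ⟨i, hi⟩ : ∃ i, j = (M + 1) + i := ⟨j - (M + 1), by omega⟩
      intro d hd
      obtain ⟨z, hz, hrep⟩ := resOK_large (e := e) hmM (x - i + (M * i)) d hd
      refine ⟨z + i, ?_, ?_⟩
      · have h2 : z + i ≡ (x - i + M * i) + i [MOD m d] := hz.add_right i
        have hi' : i ≤ x := by
          have : j * 1 ≤ j * N := Nat.mul_le_mul_left _ hNpos
          omega
        have h3 : (x - i + M * i) + i = x + M * i := by omega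
        rw [h3] at h2
        refine h2.trans ?_
        have : M * i ≡ 0 [MOD m d] :=
          (Nat.modEq_zero_iff_dvd).2 ((hmdvd d hd).mul_right i)
        simpa using this.add_left x
      · rw [hi]; exact hrep.addOnes i
    · omega
    · have e1 : (j + 1) * N = j * N + N := by ring
      have e2 : j * (N + W) = j * N + j * W := by ring
      rw [e1] at hj3
      rw [e2]
      omega
  · intro d
    constructor
    · rintro ⟨hd0, n, k, hk, hkd, hgap⟩
      rcases Nat.lt_or_ge 1 d with hd1 | hd1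
      swap
      · have : d = 1 := by omega
        rw [this]; exact h1
      obtain ⟨hr1, hlo1, hhi1⟩ := good_res hk
      obtain ⟨hr2, hlo2, hhi2⟩ := good_res hkd
      have hnot := hgap (k + 1) (by omega) (by omega)
      have hnres : ¬ ResOK I e m (k + 1) n := by
        intro hres
        apply hnot
        apply hgm _ _ hres
        · have e1 : (k + 1) * N = k * N + N := by ring
          have e2 : (k + d) * N = k * N + d * N := by ring
          have e3 : 2 * N ≤ d * N := Nat.mul_le_mul_right _ hd1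
          omega
        · have e1 : (k + 1) * (N + W) = k * (N + W) + (N + W) := by ring
          omega
      -- visibility
      have hvis : d * N ≤ k * W := by
        have e1 : (k + d) * N = k * N + d * N := by ring
        have e2 : k * (N + W) = k * N + k * W := by ring
        omega
      have hvis2 : d * (2 * T) < k := by
        by_contra hcon
        push Not at hcon
        have e1 : k * W ≤ d * (2 * T) * W := Nat.mul_le_mul_right _ hcon
        have e2 : d * N = d * (2 * T) * W + d := by rw [hN]; ring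
        omega
      unfold ResOK at hnres
      push Not at hnres
      obtain ⟨d', hd', hlam⟩ := hnres
      obtain ⟨hd2', hdD'⟩ := hI2 d' hd'
      have hsq : (2 * e d' + 1) * (2 * e d' + 1) ≤ k := by
        have e1 : (2 * e d' + 1) * (2 * e d' + 1) ≤ c d' := by
          simp only [he, hc]
          exact Nat.mul_le_mul (by omega) (by omega)
        have e2 := hB d' hd'
        have e3 : 2 * (2 * T) ≤ d * (2 * T) := Nat.mul_le_mul_right _ hd1
        omega
      obtain ⟨hkn, hkt⟩ := lam_gap (e := e d') (t := t d') (m := m d') rfl hsq (hr1 d' hd') hlam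
      have hnext := lam_next (e := e d') (t := t d') (m := m d') rfl (by
        simp only [he, ht]
        have : (2 * d' + 1) * 1 ≤ (2 * d' + 1) * T := Nat.mul_le_mul_left _ (by omega)
        omega) hkn hkt (show k < k + d by omega) (hr2 d' hd')
      have hed : e d' + 2 = d' := by simp only [he]; omega
      have hle : d' ≤ d := by omega
      have hge : d ≤ d' := by
        by_contra hcon
        push Not at hcon
        have e1 : (d' + 1) * (2 * T) ≤ d * (2 * T) := Nat.mul_le_mul_right _ hcon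
        have e2 : (d' + 1) * (2 * T) = (2 * d' + 1) * T + T := by ring
        simp only [ht] at hkt
        omega
      have : d = d' := by omega
      rw [this]; exact hdD'
    · intro hd
      refine ⟨hD d hd, ?_⟩
      have hdS := hS d hd
      rcases Nat.lt_or_ge 1 d with hd1 | hd1
      · -- d ≥ 2
        have hdI : d ∈ I := by rw [hI, Finset.mem_filter]; exact ⟨hd, hd1⟩
        set k : ℕ := t d - 2 with hk
        have htd : (2 * d + 1) * T = 2 * (d * T) + T := by ring
        have hdT : d * 1 ≤ d * T := Nat.mul_le_mul_left _ (by omega)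
        have hkt : k + 2 = t d := by
          rw [hk]; simp only [ht]; omega
        have hk' : k + 2 = 2 * (d * T) + T := by rw [hkt]; simp only [ht]; omega
        obtain ⟨β, hβ⟩ := Nat.chineseRemainderOfFinset (fun i => if i = d then k else k + d) m I
          hpos hcop
        obtain ⟨n, hn1, hn2, hn3⟩ := exists_modEq_ge M ((k + d) * N + (M + 1) * M) β hM1
        have hres_d : n ≡ k [MOD m d] := by
          have := hβ d hdI
          simp only [if_true] at this
          exact (hn3.of_dvd (hmdvd d hdI)).trans this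
        have hres_i : ∀ i ∈ I, i ≠ d → n ≡ k + d [MOD m i] := by
          intro i hi hne
          have := hβ i hi
          simp only [if_neg hne] at this
          exact (hn3.of_dvd (hmdvd i hi)).trans this
        have hed : e d + 2 = d := by simp only [he]; omega
        have hkW : k * W + 2 * W = 2 * (d * T) * W + T * W := by
          rw [← Nat.add_mul, hk', Nat.add_mul]
        have hbound : n + (M + 1) * M ≤ k * (N + W) := by
          have e1 : (k + d) * N = k * N + d * N := by ring
          have e2 : k * (N + W) = k * N + k * W := by ring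
          have e3 : d * N = 2 * (d * T) * W + d := by rw [hN]; ring
          omega
        have hbound2 : n + (M + 1) * M ≤ (k + d) * (N + W) := by
          have e1 : (k + d) * (N + W) = k * (N + W) + d * (N + W) := by ring
          omega
        refine ⟨n, k, ?_, ?_, ?_⟩
        · apply hgm _ _ ?_ ?_ hbound
          · intro i hi
            by_cases hne : i = d
            · subst hne
              exact ⟨k, hres_d.symm, Rep.ones _ _⟩
            · exact ⟨k + d, (hres_i i hi hne).symm, Rep.onesTwos (by omega) (by omega)⟩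
          · have e1 : (k + d) * N = k * N + d * N := by ring
            omega
        · apply hgm _ _ ?_ (by omega) hbound2
          intro i hi
          by_cases hne : i = d
          · subst hne
            obtain ⟨z, hz, hrep⟩ := lam_top (e := e i) (t := t i) (m := m i) rfl hkt
            rw [hed] at hrep
            exact ⟨z, hz.trans hres_d.symm, hrep⟩
          · exact ⟨k + d, (hres_i i hi hne).symm, Rep.ones _ _⟩
        · intro j hj1 hj2 hgood
          obtain ⟨hr, -, -⟩ := good_res hgood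
          have := lam_next (e := e d) (t := t d) (m := m d) rfl (by
            rw [hed]; simp only [ht]; omega) hres_d.symm (by omega) hj1 (hr d hdI)
          omega
      · have hd1' : d = 1 := by have := hD d hd; omega
        subst hd1'
        set k : ℕ := 2 * T + 1 with hk
        obtain ⟨n, hn1, hn2, hn3⟩ := exists_modEq_ge M ((k + 1) * N + (M + 1) * M) (k + 1) hM1
        have hbound : n + (M + 1) * M ≤ k * (N + W) := by
          have e1 : (k + 1) * N = k * N + N := by ring
          have e2 : k * (N + W) = k * N + k * W := by ring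
          have e3 : k * W = 2 * (T * W) + W := by rw [hk]; ring
          omega
        have hbound2 : n + (M + 1) * M ≤ (k + 1) * (N + W) := by
          have e1 : (k + 1) * (N + W) = k * (N + W) + (N + W) := by ring
          omega
        refine ⟨n, k, ?_, ?_, ?_⟩
        · apply hgm _ _ ?_ ?_ hbound
          · intro i hi
            exact ⟨k + 1, (hn3.of_dvd (hmdvd i hi)).symm, Rep.onesTwos (by omega) (by omega)⟩
          · have e1 : (k + 1) * N = k * N + N := by ring
            omega
        · apply hgm _ _ ?_ (by omega) hbound2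
          intro i hi
          exact ⟨k + 1, (hn3.of_dvd (hmdvd i hi)).symm, Rep.ones _ _⟩
        · intro j hj1 hj2
          omega

end Pool.Agent.Helper72.Delta
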